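import Pool.Agent.K.MP_5e292f_al.C1

set_option autoImplicit false
open Pointwise

namespace Pool.Agent.Results.MP_5e292f_al.FlatDichotomy

/-- Periodic flats in all dimensions `n ≤ N`, or continuum many pairwise non-parallel `N`-flats
(in the orbit closure of the given flat when `N` is the top dimension). -/
theorem result :
  ∀ (X : Type) [MetricSpace X] [ProperSpace X] (Γ : Type) [Group Γ] [MulAction Γ X]
    [IsIsometricSMul Γ X],
    (∀ x y : X, ∃ m : X, ∀ z : X,
      dist z m ^ 2 ≤ (dist z x ^ 2 + dist z y ^ 2) / 2 - dist x y ^ 2 / 4) →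
    (∀ K : Set X, IsCompact K → {g : Γ | ((g • K) ∩ K).Nonempty}.Finite) →
    (∃ K : Set X, IsCompact K ∧ ∀ x : X, ∃ g : Γ, x ∈ g • K) →
    ∀ (N : ℕ) (f : EuclideanSpace ℝ (Fin N) → X), Isometry f →
      (∀ n ≤ N, ∃ f' : EuclideanSpace ℝ (Fin n) → X, Isometry f' ∧
        ∃ H : Subgroup Γ,
          (∀ h : Γ, h ∈ H → h • Set.range f' = Set.range f') ∧
          ∃ K : Set X, IsCompact K ∧ Set.range f' ⊆ ⋃ h ∈ H, (h : Γ) • K) ∨
      ∃ F : ℝ → EuclideanSpace ℝ (Fin N) → X, (∀ s, Isometry (F s)) ∧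
        (∀ s t, s ≠ t → Metric.hausdorffEDist (Set.range (F s)) (Set.range (F t)) = ⊤) ∧
        ((¬ ∃ g : EuclideanSpace ℝ (Fin (N + 1)) → X, Isometry g) →
          ∀ s, F s ∈ closure {g | ∃ (γ : Γ) (v : EuclideanSpace ℝ (Fin N)),
            g = fun a => γ • f (a + v)}) := by
  intro X _ _ Γ _ _ _ hX hprop hcoc N f hf
  exact Pool.Agent.FlatDich.main hX hprop hcoc N f hf

end Pool.Agent.Results.MP_5e292f_al.FlatDichotomy
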